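import Mathlib

set_option autoImplicit false

/-!
# MP_6f69d0_co: sum-free sets with an even least element
-/

namespace Pool.Agent.Results.MP_6f69d0_co.OddMultiples

open Finset

/-- `S` is a sum-free subset of `{1, ..., n}` with least element `p`. -/
def Adm (n p : ℕ) (S : Finset ℕ) : Prop :=
  S ⊆ Icc 1 n ∧ (∀ x ∈ S, ∀ y ∈ S, x + y ∉ S) ∧ p ∈ S ∧ ∀ x ∈ S, p ≤ x

open Classical in
/-- the largest size of such a set -/
noncomputable def g (n p : ℕ) : ℕ := ((Icc 1 n).powerset.filter (Adm n p)).sup card

theorem nc (K : Finset ℕ) (a l : ℕ) (h : ∀ k ∈ K, a ≤ k ∧ k < a + 2 * l)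
    (hn : ∀ k ∈ K, k + 1 ∉ K) : K.card ≤ l := by
  have h1 : K.card ≤ (range l).card := by
    refine card_le_card_of_injOn (fun k => (k - a) / 2) (fun k hk => ?_) (fun k hk k' hk' hkk => ?_)
    · have := h k hk
      simp only [coe_range, Set.mem_Iio]
      omega
    · have h2 := h k hk
      have h3 := h k' hk'
      simp only at hkk
      by_contra hne
      rcases Nat.lt_or_ge k k' with h4 | h4
      · have h5 : k' = k + 1 := by omega
        exact hn k hk (h5 ▸ hk')
      · have h5 : k = k' + 1 := by omega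
        exact hn k' hk' (h5 ▸ hk)
  simpa using h1

theorem upper (q m : ℕ) (hq : 0 < q) (hm : 2 ≤ m) (S : Finset ℕ)
    (hS : Adm ((2 * m + 1) * (2 * q)) (2 * q) S) : S.card ≤ m * (2 * q) := by
  obtain ⟨h1, h2, h3, h4⟩ := hS
  obtain ⟨p, hp⟩ : ∃ p, p = 2 * q := ⟨_, rfl⟩
  rw [← hp] at h1 h3 h4 ⊢
  have hp0 : 0 < p := by omega
  let K : ℕ → Finset ℕ := fun r => (range (2 * m + 2)).filter fun k => k * p + r ∈ S
  have hmem : ∀ r k, k ∈ K r → k * p + r ∈ S := fun r k hk => (mem_filter.1 hk).2
  have hlt : ∀ r k, k ∈ K r → k < 2 * m + 2 := fun r k hk => mem_range.1 (mem_filter.1 hk).1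
  have hnc : ∀ r k, k ∈ K r → k + 1 ∉ K r := by
    intro r k hk hk'
    have h5 := hmem r k hk
    have h6 := hmem r (k + 1) hk'
    refine h2 _ h5 _ h3 ?_
    have h7 : k * p + r + p = (k + 1) * p + r := by ring
    rw [h7]
    exact h6
  have hpos : ∀ r, r < p → ∀ k ∈ K r, 1 ≤ k := by
    intro r hr k hk
    have h5 := h4 _ (hmem r k hk)
    by_contra h6
    have h7 : k = 0 := by omega
    subst h7
    omega
  have hup : ∀ r, 0 < r → ∀ k ∈ K r, k ≤ 2 * m := by
    intro r hr k hk
    have h5 := (mem_Icc.1 (h1 (hmem r k hk))).2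
    by_contra h6
    have h7 : (2 * m + 1) * p ≤ k * p := Nat.mul_le_mul_right _ (by omega)
    omega
  have hcard : S.card ≤ ∑ r ∈ range p, (K r).card := by
    rw [card_eq_sum_card_fiberwise (f := fun x => x % p) (t := range p)
      (fun x _ => by simpa using Nat.mod_lt x hp0)]
    refine sum_le_sum fun r hr => ?_
    refine card_le_card_of_injOn (fun x => x / p) (fun x hx => ?_) (fun x hx y hy hxy => ?_)
    · have hx1 := (mem_filter.1 (mem_coe.1 hx))
      have h5 := Nat.div_add_mod x p
      have h6 := (mem_Icc.1 (h1 hx1.1)).2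
      refine mem_coe.2 (mem_filter.2 ⟨mem_range.2 ?_, ?_⟩)
      · have h7 : x / p ≤ 2 * m + 1 := by
          rw [← Nat.mul_div_cancel (2 * m + 1) hp0]
          exact Nat.div_le_div_right h6
        show x / p < 2 * m + 2
        omega
      · have h8 : x / p * p + r = x := by
          rw [mul_comm, ← hx1.2]
          exact h5
        simp only
        rw [h8]
        exact hx1.1
    · have hx1 := (mem_filter.1 (mem_coe.1 hx)).2
      have hy1 := (mem_filter.1 (mem_coe.1 hy)).2
      have h5 := Nat.div_add_mod x p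
      have h6 := Nat.div_add_mod y p
      simp only at hxy hx1 hy1
      rw [← h5, ← h6, hxy, hx1, hy1]
  have hgen : ∀ r, 0 < r → r < p → (K r).card ≤ m := fun r hr hrp =>
    nc (K r) 1 m (fun k hk => ⟨hpos r hrp k hk, by have := hup r hr k hk; omega⟩) (hnc r)
  refine hcard.trans ?_
  by_cases hA : 3 * p ∈ S ∧ 5 * p ∈ S
  · -- the class of `q` is deficient
    have h5 : ∑ r ∈ range p, (K r).card < ∑ r ∈ range p, (m + if r = 0 then 1 else 0) := by
      refine sum_lt_sum (fun r hr => ?_) ⟨q, mem_range.2 (by omega), ?_⟩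
      · by_cases h0 : r = 0
        · subst h0
          simp only [if_true]
          exact nc (K 0) 1 (m + 1) (fun k hk => ⟨hpos 0 hp0 k hk, by
            have := hlt 0 k hk; omega⟩) (hnc 0)
        · rw [if_neg h0, add_zero]
          exact hgen r (by omega) (mem_range.1 hr)
      · rw [if_neg (by omega), add_zero]
        have h6 : (K q).card ≤ m - 1 := by
          refine nc (K q) 3 (m - 1) (fun k hk => ⟨?_, by have := hup q hq k hk; omega⟩) (hnc q)
          have h7 := hpos q (by omega) k hk
          have h8 := hmem q k hk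
          have h9 := h2 _ h8 _ h8
          by_contra h10
          have h11 : k = 1 ∨ k = 2 := by omega
          rcases h11 with rfl | rfl
          · apply h9
            have : 1 * p + q + (1 * p + q) = 3 * p := by omega
            rw [this]
            exact hA.1
          · apply h9
            have : 2 * p + q + (2 * p + q) = 5 * p := by omega
            rw [this]
            exact hA.2
        omega
    have h6 : ∑ r ∈ range p, (m + if r = 0 then 1 else 0) = m * p + 1 := by
      rw [sum_add_distrib, sum_const, card_range, smul_eq_mul, sum_ite_eq' (range p) 0,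
        if_pos (mem_range.2 hp0), mul_comm]
    omega
  · have h0 : (K 0).card ≤ m := by
      have hk2 : 2 ∉ K 0 := by
        intro hk
        have h5 := hmem 0 2 hk
        refine h2 _ h3 _ h3 ?_
        have : p + p = 2 * p + 0 := by omega
        rw [this]
        exact h5
      by_cases h3p : 3 * p ∈ S
      · have h5p : 5 * p ∉ S := fun h => hA ⟨h3p, h⟩
        have hk4 : 4 ∉ K 0 := by
          intro hk
          have h5 := hmem 0 4 hk
          refine h2 _ h3 _ h3p ?_
          have : p + 3 * p = 4 * p + 0 := by omega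
          rw [this]
          exact h5
        have hk5 : 5 ∉ K 0 := fun hk => h5p (by simpa using hmem 0 5 hk)
        have h6 : K 0 ⊆ {1, 3} ∪ (K 0).filter (fun k => 6 ≤ k) := by
          intro k hk
          have h7 := hpos 0 hp0 k hk
          by_cases h8 : 6 ≤ k
          · exact mem_union_right _ (mem_filter.2 ⟨hk, h8⟩)
          · have h9 : k = 1 ∨ k = 2 ∨ k = 3 ∨ k = 4 ∨ k = 5 := by omega
            rcases h9 with rfl | rfl | rfl | rfl | rfl
            · simp
            · exact (hk2 hk).elim
            · simp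
            · exact (hk4 hk).elim
            · exact (hk5 hk).elim
        have h7 := card_le_card h6
        have h8 := card_union_le ({1, 3} : Finset ℕ) ((K 0).filter (fun k => 6 ≤ k))
        have h9 : ((K 0).filter (fun k => 6 ≤ k)).card ≤ m - 2 := by
          refine nc _ 6 (m - 2) (fun k hk => ⟨(mem_filter.1 hk).2, ?_⟩) (fun k hk hk' =>
            hnc 0 k (mem_filter.1 hk).1 (mem_filter.1 hk').1)
          have := hlt 0 k (mem_filter.1 hk).1
          omega
        have h10 : ({1, 3} : Finset ℕ).card = 2 := by decide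
        omega
      · have hk3 : 3 ∉ K 0 := fun hk => h3p (by simpa using hmem 0 3 hk)
        have h6 : K 0 ⊆ {1} ∪ (K 0).filter (fun k => 4 ≤ k) := by
          intro k hk
          have h7 := hpos 0 hp0 k hk
          by_cases h8 : 4 ≤ k
          · exact mem_union_right _ (mem_filter.2 ⟨hk, h8⟩)
          · have h9 : k = 1 ∨ k = 2 ∨ k = 3 := by omega
            rcases h9 with rfl | rfl | rfl
            · simp
            · exact (hk2 hk).elim
            · exact (hk3 hk).elim
        have h7 := card_le_card h6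
        have h8 := card_union_le ({1} : Finset ℕ) ((K 0).filter (fun k => 4 ≤ k))
        have h9 : ((K 0).filter (fun k => 4 ≤ k)).card ≤ m - 1 := by
          refine nc _ 4 (m - 1) (fun k hk => ⟨(mem_filter.1 hk).2, ?_⟩) (fun k hk hk' =>
            hnc 0 k (mem_filter.1 hk).1 (mem_filter.1 hk').1)
          have := hlt 0 k (mem_filter.1 hk).1
          omega
        have h10 : ({1} : Finset ℕ).card = 1 := by decide
        omega
    have h5 : ∑ r ∈ range p, (K r).card ≤ ∑ r ∈ range p, m := by
      refine sum_le_sum fun r hr => ?_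
      by_cases h6 : r = 0
      · subst h6; exact h0
      · exact hgen r (by omega) (mem_range.1 hr)
    rw [sum_const, card_range, smul_eq_mul, mul_comm] at h5
    exact h5

theorem lower (n p : ℕ) (hp : 0 < p) (hn : 5 * p ≤ n + 2) :
    ∃ S, Adm n p S ∧ S.card = 2 * p := by
  refine ⟨Icc p (2 * p - 1) ∪ Icc (4 * p - 1) (5 * p - 2), ⟨?_, ?_, ?_, ?_⟩, ?_⟩
  · intro x hx
    simp only [mem_union, mem_Icc] at hx ⊢
    omega
  · intro x hx y hy
    simp only [mem_union, mem_Icc] at hx hy ⊢
    omega
  · simp only [mem_union, mem_Icc]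
    omega
  · intro x hx
    simp only [mem_union, mem_Icc] at hx
    omega
  · rw [card_union_of_disjoint, Nat.card_Icc, Nat.card_Icc]
    · omega
    · rw [Finset.disjoint_left]
      intro x hx hy
      simp only [mem_Icc] at hx hy
      omega

theorem result (p : ℕ) (hp : Even p) (hp0 : 0 < p) :
    (∀ m, 2 ≤ m → g ((2 * m + 1) * p) p ≤ m * p) ∧ g (5 * p - 1) p = 2 * p ∧
      g (5 * p) p = 2 * p := by
  classical
  obtain ⟨q, hq⟩ := hp
  have hq2 : p = 2 * q := by omega
  subst hq2
  have hup : ∀ m, 2 ≤ m → g ((2 * m + 1) * (2 * q)) (2 * q) ≤ m * (2 * q) := by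
    intro m hm
    refine Finset.sup_le fun S hS => ?_
    exact upper q m (by omega) hm S (mem_filter.1 hS).2
  have hlow : ∀ n, 5 * (2 * q) ≤ n + 2 → 2 * (2 * q) ≤ g n (2 * q) := by
    intro n hn
    obtain ⟨S, hS, hc⟩ := lower n (2 * q) hp0 hn
    rw [← hc]
    exact Finset.le_sup (f := card) (mem_filter.2 ⟨mem_powerset.2 hS.1, hS⟩)
  have h5 := hup 2 le_rfl
  have e5 : (2 * 2 + 1) * (2 * q) = 5 * (2 * q) := by ring
  rw [e5] at h5
  refine ⟨hup, le_antisymm ?_ (hlow _ (by omega)), le_antisymm h5 (hlow _ (by omega))⟩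
  refine Finset.sup_le fun S hS => ?_
  obtain ⟨h1, h2, h3, h4⟩ := (mem_filter.1 hS).2
  refine upper q 2 (by omega) le_rfl S ⟨fun x hx => ?_, h2, h3, h4⟩
  have := mem_Icc.1 (h1 hx)
  rw [mem_Icc]
  omega

end Pool.Agent.Results.MP_6f69d0_co.OddMultiples
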